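import Mathlib

/-!
# The number of faces of an embedded graph

Rotation systems, possibly with signatures: every face has at least three sides.
-/

set_option autoImplicit false

namespace Pool.Agent.V11214.GS

/-- if `x`, `φ x`, `φ² x` are always different then there are at most `|X| / 3` orbits -/
theorem three_orbits {X : Type} [Finite X] (φ : Equiv.Perm X)
    (h : ∀ x, φ x ≠ x ∧ φ (φ x) ≠ x) :
    3 * Nat.card (MulAction.orbitRel.Quotient (Subgroup.zpowers φ) X) ≤ Nat.card X := by
  classical
  set Q := MulAction.orbitRel.Quotient (Subgroup.zpowers φ) X with hQ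
  have hf : Function.Injective (fun p : Q × Fin 3 =>
      ((φ ^ (p.2 : ℕ)) (Quotient.out p.1) : X)) := by
    rintro ⟨q, i⟩ ⟨q', j⟩ hij
    simp only at hij
    have h1 : (Quotient.mk'' (Quotient.out q) : Q) = Quotient.mk'' (Quotient.out q') := by
      rw [Quotient.eq'', MulAction.orbitRel_apply, MulAction.mem_orbit_iff]
      refine ⟨⟨(φ ^ (i : ℕ))⁻¹ * φ ^ (j : ℕ), ?_⟩, ?_⟩
      · exact Subgroup.mul_mem _ (Subgroup.inv_mem _ (Subgroup.pow_mem _
          (Subgroup.mem_zpowers φ) _)) (Subgroup.pow_mem _ (Subgroup.mem_zpowers φ) _)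
      · change ((φ ^ (i : ℕ))⁻¹ * φ ^ (j : ℕ)) (Quotient.out q') = Quotient.out q
        rw [Equiv.Perm.mul_apply, ← hij]
        exact (φ ^ (i : ℕ)).symm_apply_apply _
    have h2 : q = q' := by
      have e1 : (Quotient.mk'' (Quotient.out q) : Q) = q := Quotient.out_eq' q
      have e2 : (Quotient.mk'' (Quotient.out q') : Q) = q' := Quotient.out_eq' q'
      rw [← e1, ← e2]
      exact h1
    subst h2
    refine Prod.ext rfl ?_
    obtain ⟨h3, h4⟩ := h (Quotient.out q)
    have h5 := (h (φ (Quotient.out q))).1
    fin_cases i <;> fin_cases j <;> simp only [Fin.zero_eta, Fin.isValue, pow_zero,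
      Equiv.Perm.coe_one, id_eq, Fin.mk_one, pow_one, Fin.reduceFinMk,
      pow_two, Equiv.Perm.mul_apply] at hij ⊢
    · exact absurd hij.symm h3
    · exact absurd hij.symm h4
    · exact absurd hij h3
    · exact absurd hij.symm h5
    · exact absurd hij h4
    · exact absurd hij h5
  have h1 := Nat.card_le_card_of_injective _ hf
  rw [Nat.card_prod, Nat.card_eq_fintype_card (α := Fin 3), Fintype.card_fin] at h1
  omega

variable {V : Type} (G : SimpleGraph V)

/-- A rotation at the vertices: a permutation of the darts which permutes cyclically the darts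
starting at each vertex. -/
def IsRotation (σ : Equiv.Perm G.Dart) : Prop :=
  (∀ d, (σ d).fst = d.fst) ∧ ∀ d d' : G.Dart, d.fst = d'.fst → ∃ n : ℕ, (σ ^ n) d = d'

variable {G}

theorem fixed_eq {σ : Equiv.Perm G.Dart} (hσ : IsRotation G σ) {d d' : G.Dart} (hd : σ d = d)
    (h : d'.fst = d.fst) : d' = d := by
  obtain ⟨n, hn⟩ := hσ.2 d d' h.symm
  have h1 : ∀ n : ℕ, (σ ^ n) d = d := by
    intro n
    induction n with
    | zero => rfl
    | succ n ih => rw [pow_succ, Equiv.Perm.mul_apply, hd, ih]
  rw [← hn, h1]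

/-- no face has one or two sides -/
theorem no_digon [Fintype V] (hG : G.Connected) (hV : 3 ≤ Fintype.card V)
    {σ : Equiv.Perm G.Dart} (hσ : IsRotation G σ) {X : Type} (φ : X → X) (δ : X → G.Dart)
    (h1 : ∀ x, (δ (φ x)).fst = (δ x).snd)
    (h2 : ∀ x, δ (φ x) = (δ x).symm → σ (δ x).symm = (δ x).symm) (x : X) :
    φ x ≠ x ∧ φ (φ x) ≠ x := by
  classical
  constructor
  · intro h
    have h3 := h1 x
    rw [h] at h3
    exact (δ x).fst_ne_snd h3
  · intro h
    have h3 := h1 x
    have h4 := h1 (φ x)
    rw [h] at h4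
    have h5 : δ (φ x) = (δ x).symm := by
      apply SimpleGraph.Dart.ext
      exact Prod.ext h3 h4.symm
    have h6 := h2 x h5
    have h7 := h2 (φ x) (by rw [h, h5, SimpleGraph.Dart.symm_symm])
    rw [h5, SimpleGraph.Dart.symm_symm] at h7
    -- the only vertices are the ends of `δ x`
    have h8 : ∀ u v : V, G.Adj u v → (u = (δ x).fst ∨ u = (δ x).snd) →
        (v = (δ x).fst ∨ v = (δ x).snd) := by
      rintro u v huv (hu | hu)
      · right
        have := fixed_eq hσ h7 (d' := ⟨(u, v), huv⟩) hu
        rw [← this]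
      · left
        have := fixed_eq hσ h6 (d' := ⟨(u, v), huv⟩) hu
        have h9 : ((δ x).symm).snd = v := by rw [← this]
        exact h9.symm
    have h9 : ∀ w : V, w = (δ x).fst ∨ w = (δ x).snd := by
      intro w
      obtain ⟨p⟩ := hG.preconnected (δ x).fst w
      have h10 : ∀ (u v : V), G.Walk u v → (u = (δ x).fst ∨ u = (δ x).snd) →
          (v = (δ x).fst ∨ v = (δ x).snd) := by
        intro u v p
        induction p with
        | nil => exact id
        | cons hadj _ ih => exact fun hu => ih (h8 _ _ hadj hu)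
      exact h10 _ _ p (Or.inl rfl)
    have h10 : (Finset.univ : Finset V) ⊆ {(δ x).fst, (δ x).snd} := by
      intro w _
      rcases h9 w with h | h <;> simp [h]
    have h11 := Finset.card_le_card h10
    have h12 : ({(δ x).fst, (δ x).snd} : Finset V).card ≤ 2 := Finset.card_le_two
    rw [Finset.card_univ] at h11
    omega

/-- the reversal of darts -/
def rev (G : SimpleGraph V) : Equiv.Perm G.Dart :=
  Equiv.mk (fun d => d.symm) (fun d => d.symm) (fun d => d.symm_symm) (fun d => d.symm_symm)

/-- The number of faces of the embedding in an orientable surface given by the rotation `σ`. -/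
noncomputable def faces (G : SimpleGraph V) (σ : Equiv.Perm G.Dart) : ℕ :=
  Nat.card (MulAction.orbitRel.Quotient (Subgroup.zpowers (σ * rev G)) G.Dart)

theorem card_dart [Fintype V] (G : SimpleGraph V) : Nat.card G.Dart = 2 * Nat.card G.edgeSet := by
  classical
  rw [Nat.card_eq_fintype_card, SimpleGraph.dart_card_eq_twice_card_edges,
    Nat.card_eq_fintype_card, SimpleGraph.edgeFinset_card]

theorem faces_le [Fintype V] (hG : G.Connected) (hV : 3 ≤ Fintype.card V)
    {σ : Equiv.Perm G.Dart} (hσ : IsRotation G σ) : 3 * faces G σ ≤ 2 * Nat.card G.edgeSet := by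
  classical
  rw [← card_dart]
  refine three_orbits _ fun x => no_digon hG hV hσ (fun x => (σ * rev G) x) id ?_ ?_ x
  · intro d
    exact hσ.1 _
  · intro d h
    exact h

end Pool.Agent.V11214.GS
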