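import Pool.Agent.V11214.GS.Faces

/-!
# Embeddings in arbitrary closed surfaces
-/

set_option autoImplicit false

namespace Pool.Agent.V11214.GS

variable {V : Type} {G : SimpleGraph V}

/-- The move of a face tracer at a vertex: `σ` if the orientation is kept, otherwise `σ⁻¹`. -/
def turn (σ : Equiv.Perm G.Dart) : Equiv.Perm (G.Dart × Bool) :=
  Equiv.mk (fun p => (if p.2 then σ.symm p.1 else σ p.1, p.2))
    (fun p => (if p.2 then σ p.1 else σ.symm p.1, p.2))
    (by
      rintro ⟨d, s⟩
      cases s <;> simp)
    (by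
      rintro ⟨d, s⟩
      cases s <;> simp)

/-- The move of a face tracer along an edge, which reverses the orientation if it is twisted. -/
def cross (tw : G.Dart → Bool) (htw : ∀ d, tw d.symm = tw d) : Equiv.Perm (G.Dart × Bool) :=
  Equiv.mk (fun p => (p.1.symm, xor p.2 (tw p.1))) (fun p => (p.1.symm, xor p.2 (tw p.1)))
    (by
      rintro ⟨d, s⟩
      simp [htw])
    (by
      rintro ⟨d, s⟩
      simp [htw])

/-- Twice the number of faces of the embedding given by the rotation `σ` and the set `tw` of twisted
edges (every face is traced in both directions). -/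
noncomputable def twiceFaces (σ : Equiv.Perm G.Dart) (tw : G.Dart → Bool)
    (htw : ∀ d, tw d.symm = tw d) : ℕ :=
  Nat.card (MulAction.orbitRel.Quotient (Subgroup.zpowers (turn σ * cross tw htw))
    (G.Dart × Bool))

/-- The connected graph `G` has a cellular embedding in a closed surface of Euler characteristic at
least `2 - g`, given by a rotation `σ` at the vertices and a set `tw` of twisted edges. The sphere
with `h` handles has Euler characteristic `2 - 2 h`, the sphere with `g` crosscaps `2 - g`. -/
def EulerGenusLe (G : SimpleGraph V) (g : ℕ) : Prop :=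
  ∃ (σ : Equiv.Perm G.Dart) (tw : G.Dart → Bool) (htw : ∀ d, tw d.symm = tw d),
    IsRotation G σ ∧
    2 * (2 - (g : ℤ)) ≤ 2 * (Nat.card V : ℤ) - 2 * (Nat.card G.edgeSet : ℤ) + twiceFaces σ tw htw

theorem twiceFaces_le [Fintype V] (hG : G.Connected) (hV : 3 ≤ Fintype.card V)
    {σ : Equiv.Perm G.Dart} (hσ : IsRotation G σ) (tw : G.Dart → Bool)
    (htw : ∀ d, tw d.symm = tw d) :
    3 * twiceFaces σ tw htw ≤ 4 * Nat.card G.edgeSet := by
  classical
  have hsym : ∀ d, (σ.symm d).fst = d.fst := by
    intro d
    have := hσ.1 (σ.symm d)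
    rw [Equiv.apply_symm_apply] at this
    exact this.symm
  have h1 : Nat.card (G.Dart × Bool) = 4 * Nat.card G.edgeSet := by
    rw [Nat.card_prod, card_dart, Nat.card_eq_fintype_card (α := Bool), Fintype.card_bool]
    ring
  rw [← h1]
  refine three_orbits _ fun x => no_digon hG hV hσ (fun x => (turn σ * cross tw htw) x)
    Prod.fst ?_ ?_ x
  · rintro ⟨d, s⟩
    change (if xor s (tw d) then σ.symm d.symm else σ d.symm).fst = d.snd
    split_ifs
    · exact hsym _
    · exact hσ.1 _
  · rintro ⟨d, s⟩ h
    change (if xor s (tw d) then σ.symm d.symm else σ d.symm) = d.symm at h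
    change σ d.symm = d.symm
    split_ifs at h
    · rw [Equiv.symm_apply_eq] at h
      exact h.symm
    · exact h

/-- Euler's formula: `g ≥ 2 + e / 3 - n`. -/
theorem euler_bound [Fintype V] (hG : G.Connected) (hV : 3 ≤ Fintype.card V) {g : ℕ}
    (h : EulerGenusLe G g) : Nat.card G.edgeSet + 6 ≤ 3 * Fintype.card V + 3 * g := by
  obtain ⟨σ, tw, htw, hσ, h1⟩ := h
  have h2 := twiceFaces_le hG hV hσ tw htw
  rw [Nat.card_eq_fintype_card] at h1
  omega

end Pool.Agent.V11214.GS
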